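import Pool.Agent.H13.MA.MStmts

/-!
# Project MA, module MET: regular second countable spaces are metrizable (inside a model)
-/

set_option linter.unusedVariables false
set_option synthInstance.maxSize 100000

namespace SW

section
variable {M : Type} [SetStr M] [ZF M]

/-- `f` is a Urysohn function for `U0`, `U1` -/
def METu (S : RNum M) (X T U0 U1 f : M) : Prop :=
  (∀ x : M, E x X → E (app f x) S.R ∧ S.le S.z (app f x) ∧ S.le (app f x) S.u) ∧
  (∀ x : M, E x U0 → app f x = S.z) ∧ (∀ x : M, E x X → ¬ E x U1 → app f x = S.u) ∧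
  ∀ x e : M, E x X → E e S.R → S.lt S.z e → ∃ W : M, E W T ∧ E x W ∧
    ∀ y : M, E y W → S.near (app f x) (app f y) e

theorem METu_df (S : RNum M) (X T : M) : Cl3 (fun U0 U1 f : M => METu S X T U0 U1 f) := by
  unfold METu; infer_instance

instance (S : RNum M) (X T : M) {n : ℕ} {t s u : (Fin n → M) → M} [ht : DfT t] [hs : DfT s]
    [hu : DfT u] : Df (fun v => METu S X T (t v) (s v) (u v)) :=
  (METu_df S X T).comp3 ht hs hu

/-- the chosen Urysohn function -/
noncomputable def METf (S : RNum M) (X T g U0 U1 : M) : M :=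
  app g (sep (pow (prod X S.R)) (fun f : M => METu S X T U0 U1 f))

theorem METf_df (S : RNum M) (X T g : M) : Fn2 (fun U0 U1 : M => METf S X T g U0 U1) := by
  unfold METf; infer_instance

instance (S : RNum M) (X T g : M) {n : ℕ} {t s : (Fin n → M) → M} [ht : DfT t] [hs : DfT s] :
    DfT (fun v => METf S X T g (t v) (s v)) :=
  (METf_df S X T g).comp2 ht hs

/-- the set of pairs `(k, f)` -/
noncomputable def METK (S : RNum M) (X T B g nu : M) : M :=
  sep (prod om (pow (prod X S.R))) (fun q : M => ∃ B1 B2 k : M, E B1 B ∧ E B2 B ∧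
    CIn X T B1 B2 ∧ E k om ∧ E (opair (opair B1 B2) k) nu ∧ q = opair k (METf S X T g B1 B2))

end

variable {M : Type} [SetStr M] [ZFC M]

theorem METf_spec (hU : URYStmt) {S : RNum M} {X T B g : M} (hS : SpC X T B)
    (hg : ChF (pow (prod X S.R)) g) {B1 B2 : M} (h1 : E B1 T) (h2 : E B2 T)
    (h : CIn X T B1 B2) :
    E (METf S X T g B1 B2) (pow (prod X S.R)) ∧ METu S X T B1 B2 (METf S X T g B1 B2) := by
  obtain ⟨f, f1, f2, f3, f4, f5⟩ := hU M S X T B hS B1 B2 h1 h2 h
  have := hg (sep (pow (prod X S.R)) (fun f : M => METu S X T B1 B2 f))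
    (fun y hy => ((mem_sep' inferInstance).1 hy).1)
    ⟨f, (mem_sep' inferInstance).2 ⟨mem_pow.2 f1, f2, f3, f4, f5⟩⟩
  exact (mem_sep' inferInstance).1 this

theorem METK_mem {S : RNum M} {X T B g nu k f : M}  :
    E (opair k f) (METK S X T B g nu) ↔ E k om ∧ E f (pow (prod X S.R)) ∧ ∃ B1 B2 : M, E B1 B ∧
      E B2 B ∧ CIn X T B1 B2 ∧ E (opair (opair B1 B2) k) nu ∧ f = METf S X T g B1 B2 := by
  unfold METK
  rw [mem_sep' inferInstance, mem_prod]
  constructor
  · rintro ⟨⟨h1, h2⟩, B1, B2, k', g1, g2, g3, g4, g5, g6⟩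
    rw [opair_inj] at g6
    obtain ⟨rfl, rfl⟩ := g6
    exact ⟨h1, h2, B1, B2, g1, g2, g3, g5, rfl⟩
  · rintro ⟨h1, h2, B1, B2, g1, g2, g3, g4, rfl⟩
    exact ⟨⟨h1, h2⟩, B1, B2, k, g1, g2, g3, h1, g4, rfl⟩

/-- an element of the field -/
def METt (S : RNum M) (a : M) (h : E a S.R) : S.T := ⟨a, h⟩

theorem MET_nn (hA : ARCStmt) (S : RNum M) {k : M} (hk : E k om)
    (h : S.near S.z S.u (S.hh k)) : False := by
  have H := hA M S
  have h1 := h.2
  rw [S.zero_add' (H.mem hk)] at h1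
  have h2 := H.anti emp_mem_om hk (fun z hz => absurd hz (not_mem_emp z))
  rw [H.zero] at h2
  have h3 : (1 : S.T) < METt S (S.hh k) (H.mem hk) := S.coe_lt.2 h1
  have h4 : METt S (S.hh k) (H.mem hk) ≤ 1 := h2
  exact absurd h3 (not_lt.2 h4)

/-- MET -/
theorem ma_met (hU : URYStmt) (hD : DSTStmt) (hA : ARCStmt) (hB : CBTStmt) (hC : ACFStmt) :
    METStmt := by
  intro M _ _ X T B hS R P Q L z u ax
  let S : RNum M := ⟨R, P, Q, L, z, u, ax⟩
  have H := hA M S
  obtain ⟨g, hg⟩ := hC M (pow (prod X S.R))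
  obtain ⟨nu, n1, n2⟩ := (hB M).prod hS.cB hS.cB
  set K := METK S X T B g nu with hK
  have memT : ∀ {V}, E V B → E V T := fun {V} h => hS.bT V h
  have Kspec : ∀ k f, E (opair k f) K → ∃ B1 B2, METu S X T B1 B2 f := by
    intro k f h
    obtain ⟨-, -, B1, B2, g1, g2, g3, -, rfl⟩ := METK_mem.1 h
    exact ⟨B1, B2, (METf_spec hU hS hg (memT g1) (memT g2) g3).2⟩
  obtain ⟨d0, d1, d2, d3, d4, d5, d6⟩ := hD M S X K
    (by
      intro p hp
      have hp' := hp
      unfold K METK at hp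
      rw [mem_sep' inferInstance] at hp
      obtain ⟨-, B1, B2, k, g1, g2, g3, g4, g5, rfl⟩ := hp
      obtain ⟨B1', B2', h⟩ := Kspec _ _ hp'
      exact ⟨k, _, g4, rfl, h.1⟩)
    (by
      intro k f f' h h'
      obtain ⟨hk, -, B1, B2, g1, g2, g3, g4, rfl⟩ := METK_mem.1 h
      obtain ⟨-, -, B1', B2', g1', g2', g3', g4', rfl⟩ := METK_mem.1 h'
      have e := n2 (opair B1 B2) (opair B1' B2') k (mem_prod.2 ⟨g1, g2⟩) (mem_prod.2 ⟨g1', g2'⟩)
        hk g4 g4'
      rw [opair_inj] at e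
      rw [e.1, e.2])
  -- separating functions
  have sepf : ∀ x U, E U T → E x U → ∃ k f, E k om ∧ E (opair k f) K ∧ app f x = S.z ∧
      ∀ y, E y X → ¬ E y U → app f y = S.u := by
    intro x U hU1 hx
    obtain ⟨V, v1, v2, v3⟩ := hS.bas hU1 hx
    obtain ⟨W, w1, w2, w3⟩ := hS.reg (memT v1) v2
    obtain ⟨B1, b1, b2, b3⟩ := hS.bas w1 w2
    have hc : CIn X T B1 V := fun y hy hcl => w3 y hy fun U' h1 h2 => by
      obtain ⟨t, ht, ht'⟩ := hcl U' h1 h2
      exact ⟨t, ht, b3 t ht'⟩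
    obtain ⟨k, hk, hk'⟩ := n1 (opair B1 V) (mem_prod.2 ⟨b1, v1⟩)
    obtain ⟨f1, f2⟩ := METf_spec hU hS hg (memT b1) (memT v1) hc
    refine ⟨k, METf S X T g B1 V, hk, METK_mem.2 ⟨hk, f1, B1, V, b1, v1, hc, hk', rfl⟩,
      f2.2.1 x b2, fun y hy hyU => f2.2.2.1 y hy fun h => hyU (v3 y h)⟩
  have ball : ∀ x U, E U T → E x U → ∃ k, E k om ∧ ∀ y, E y X →
      S.lt (app d0 (opair x y)) (S.hh k) → E y U := by
    intro x U hU1 hx
    obtain ⟨k, f, hk, hf, h1, h2⟩ := sepf x U hU1 hx
    refine ⟨k, hk, fun y hy hlt => ?_⟩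
    by_contra hyU
    have h3 := d6 x y k f (hS.sub hU1 x hx) hy hf hlt
    rw [h1, h2 y hy hyU] at h3
    exact MET_nn hA S hk h3
  -- the metric
  let dm := gr (prod X X) (fun p : M => app d0 p)
  have hdm : ∀ {x y c}, E x X → E y X → (Trp x y c dm ↔ c = app d0 (opair x y)) := by
    intro x y c hx hy
    rw [trp_iff, opair_mem_gr inferInstance, mem_prod]
    exact ⟨fun h => h.2, fun h => ⟨⟨hx, hy⟩, h⟩⟩
  refine ⟨dm, ?_, ?_, ?_, ?_, ?_, ?_⟩
  · intro x y hx hy
    exact ⟨_, (d1 x y hx hy).1, (hdm hx hy).2 rfl⟩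
  · intro x y c c' hx hy h h'
    rw [(hdm hx hy).1 h, (hdm hx hy).1 h']
  · intro x y hx hy
    rw [hdm hx hy]
    constructor
    · intro h
      by_contra hne
      obtain ⟨U, u1, u2, u3⟩ := hS.t1 hx hy hne
      obtain ⟨k, hk, h1⟩ := ball x U u1 u2
      refine u3 (h1 y hy ?_)
      rw [← h]
      exact H.pos hk
    · rintro rfl
      exact (d2 x hx).symm
  · intro x y c hx hy h
    rw [hdm hx hy] at h
    rw [hdm hy hx, h]
    exact d3 x y hx hy
  · intro x y v a b c s hx hy hv h1 h2 h3 h4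
    rw [hdm hx hy] at h1
    rw [hdm hy hv] at h2
    rw [hdm hx hv] at h3
    subst h1 h2 h3
    have h5 := (S.trp_add (d1 x y hx hy).1 (d1 y v hy hv).1).1 h4
    rw [h5]
    exact pairIn_iff.2 (d4 x y v hx hy hv)
  · intro U
    constructor
    · intro hU1
      refine ⟨hS.sub hU1, fun x hx => ?_⟩
      obtain ⟨k, hk, h1⟩ := ball x U hU1 hx
      refine ⟨S.hh k, H.mem hk, pairIn_iff.2 (H.pos hk).1, (H.pos hk).2.symm, ?_⟩
      intro y c hy hc h2 h3
      rw [hdm (hS.sub hU1 x hx) hy] at hc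
      subst hc
      exact h1 y hy ⟨pairIn_iff.1 h2, h3⟩
    · rintro ⟨hUX, hU1⟩
      have key : ∀ x, E x U → ∃ W, E W T ∧ E x W ∧ Sub W U := by
        intro x hx
        have hxX := hUX x hx
        obtain ⟨r, hr, hr1, hr2, hr3⟩ := hU1 x hx
        obtain ⟨n, hn, hn'⟩ := H.small hr ⟨pairIn_iff.1 hr1, hr2.symm⟩
        have ind : ∀ m, E m om → ∃ W : M, E W T ∧ E x W ∧ ∀ y k f : M, E y W → E k m →
            E (opair k f) K → S.near (app f x) (app f y) (S.hh n) := by
          refine om_ind (C := fun m : M => ∃ W : M, E W T ∧ E x W ∧ ∀ y k f : M, E y W → E k m →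
            E (opair k f) K → S.near (app f x) (app f y) (S.hh n)) inferInstance ?_ ?_
          · exact ⟨X, hS.top, hxX, fun y k f _ hk => absurd hk (not_mem_emp k)⟩
          · rintro m hm ⟨W, w1, w2, w3⟩
            by_cases hf : ∃ f, E (opair m f) K
            · obtain ⟨f, hf⟩ := hf
              obtain ⟨B1, B2, hu⟩ := Kspec _ _ hf
              obtain ⟨W', w1', w2', w3'⟩ := hu.2.2.2 x (S.hh n) hxX (H.mem hn) (H.pos hn)
              refine ⟨inter W W', hS.int w1 w1', mem_inter.2 ⟨w2, w2'⟩, ?_⟩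
              intro y k f' hy hk hf'
              rw [mem_inter] at hy
              rw [mem_suc] at hk
              rcases hk with hk | rfl
              · exact w3 y k f' hy.1 hk hf'
              · obtain ⟨hk, -, B1, B2, g1, g2, g3, g4, e1⟩ := METK_mem.1 hf
                obtain ⟨-, -, B1', B2', g1', g2', g3', g4', e2⟩ := METK_mem.1 hf'
                have e := n2 (opair B1 B2) (opair B1' B2') k (mem_prod.2 ⟨g1, g2⟩)
                  (mem_prod.2 ⟨g1', g2'⟩) hk g4 g4'
                rw [opair_inj] at e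
                rw [← e.1, ← e.2] at e2
                rw [e2, ← e1]
                exact w3' y hy.2
            · refine ⟨W, w1, w2, ?_⟩
              intro y k f' hy hk hf'
              rw [mem_suc] at hk
              rcases hk with hk | rfl
              · exact w3 y k f' hy hk hf'
              · exact absurd ⟨f', hf'⟩ hf
        obtain ⟨W, w1, w2, w3⟩ := ind n hn
        refine ⟨W, w1, w2, fun y hy => ?_⟩
        have hyX := hS.sub w1 y hy
        have h1 := d5 n hn x y hxX hyX fun k f hk hf => w3 y k f hy hk hf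
        refine hr3 y _ hyX ((hdm hxX hyX).2 rfl) ?_ ?_
        · have a1 : METt S _ (d1 x y hxX hyX).1 ≤ METt S _ (H.mem hn) := h1
          have a2 : METt S _ (H.mem hn) < METt S r hr := S.coe_lt.2 hn'
          exact pairIn_iff.2 (lt_of_le_of_lt a1 a2).le
        · have a1 : METt S _ (d1 x y hxX hyX).1 ≤ METt S _ (H.mem hn) := h1
          have a2 : METt S _ (H.mem hn) < METt S r hr := S.coe_lt.2 hn'
          exact fun e => (lt_of_le_of_lt a1 a2).ne (Subtype.ext e)
      have e : U = sUn (sep T (fun W : M => Sub W U)) := by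
        refine ext fun x => ?_
        rw [mem_sUn]
        constructor
        · intro hx
          obtain ⟨W, w1, w2, w3⟩ := key x hx
          exact ⟨W, (mem_sep' inferInstance).2 ⟨w1, w3⟩, w2⟩
        · rintro ⟨W, hW, hx⟩
          exact ((mem_sep' inferInstance).1 hW).2 x hx
      rw [e]
      exact hS.uni fun W hW => ((mem_sep' inferInstance).1 hW).1

end SW
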